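import Pool.Agent.TH784.AA.Fin

/-!
# Pointwise convergence of multi-parameter multiple ergodic averages for algebraic `ℤ^d`-actions

`X` is an arbitrary compact Hausdorff abelian group with its Haar probability measure `μ` and
`T_1, …, T_d` are commuting affine bijections `x ↦ α_i x · c_i` with `α_i` a continuous
homomorphism (so `α_i` is an automorphism): algebraic `ℤ^d`-actions (`c_i = 1`), rotations and
unipotent affine actions are included. No ergodicity, mixing, expansiveness, entropy, Noetherian
or metrizability assumption is made.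

`IsFactor μ T ν R` (start library): some measure preserving `π : X → Y` satisfies
`π (T i x) = R i (π x)` for almost every `x`.
-/

set_option autoImplicit false

open Filter Topology MeasureTheory
open scoped ENNReal

namespace Pool.Agent.Results.MP_f720ae_an.AlgebraicActionBoxes

open Pool.Agent.W761.Gauss (IsFactor)

/-- Let `T_1, …, T_d` be commuting affine bijections of a compact Hausdorff abelian group `X` with
Haar probability `μ`, let `R_1, …, R_d` be a factor of this system (for example, the system
itself), let `P_ij ∈ ℤ[m_1, …, m_k]` be polynomials of degree at most one (arbitrary constant terms)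
and `f_1, …, f_n ∈ L^∞`. Then for almost every `y` the averages of
`∏_j f_j (R_1^(P_1j(m)) ⋯ R_d^(P_dj(m)) y)` over the boxes `[0, M_1) × ⋯ × [0, M_k)` converge as
`min M_i → ∞` (unrestricted boxes). -/
theorem result (d k n : ℕ) {X Y : Type} [CommGroup X] [TopologicalSpace X]
    [IsTopologicalGroup X] [CompactSpace X] [T2Space X] [MeasurableSpace X] [BorelSpace X]
    [MeasurableSpace Y] (μ : Measure X) [μ.IsHaarMeasure] [IsProbabilityMeasure μ]
    (ν : Measure Y) (T : Fin d → Equiv.Perm X)
    (hT : ∀ i, ∃ (α : X →ₜ* X) (c : X), ∀ x, T i x = α x * c)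
    (hc : ∀ i j, Commute (T i) (T j))
    (R : Fin d → Equiv.Perm Y) (hRm : ∀ i, Measurable (R i).symm)
    (hR : ∀ i, MeasurePreserving (R i) ν ν) (hfac : IsFactor μ T ν R)
    (P : Fin d → Fin n → MvPolynomial (Fin k) ℤ)
    (hP : ∀ i j, (P i j).totalDegree ≤ 1) (f : Fin n → Y → ℂ) (hf : ∀ j, MemLp (f j) ∞ ν) :
    ∀ᵐ y ∂ν, ∃ L : ℂ, Tendsto
      (fun M : Fin k → ℕ => (∏ j, (M j : ℂ))⁻¹ *
        ∑ m ∈ Fintype.piFinset (fun j => Finset.range (M j)),
          ∏ j : Fin n, f j ((List.ofFn fun i : Fin d =>
            R i ^ (MvPolynomial.eval (fun l => ((m l : ℕ) : ℤ)) (P i j))).prod y))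
      atTop (𝓝 L) :=
  Pool.Agent.TH784.AA.factor_gen
    (fun i => Pool.Agent.TH784.AA.IsAff.mp (hT i))
    (fun i => Pool.Agent.TH784.AA.mp_symm (hT i)) hRm hR hfac
    (fun m i j => MvPolynomial.eval (fun l => ((m l : ℕ) : ℤ)) (P i j))
    (fun g hg => by
      have h := Pool.Agent.TH784.AA.affine_conv (μ := μ) hT hc
        (fun i j => MvPolynomial.coeff 0 (P i j))
        (fun i j (l : Fin k) => MvPolynomial.coeff (Finsupp.single l 1) (P i j)) hg
      simp only [← Pool.Agent.W761.Box.eval_affine _ (hP _ _)] at h
      exact h) hf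

end Pool.Agent.Results.MP_f720ae_an.AlgebraicActionBoxes
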