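import Pool.Agent.TH635.AA.Fnl

/-!
# Algebraic `ℤ^d`-actions, polynomial exponents, unrestricted boxes

`X` is an arbitrary compact Hausdorff abelian group with its Haar probability measure `μ`, and
`T_1, …, T_d` are commuting affine bijections `x ↦ α_i x · c_i` with `α_i` a continuous
homomorphism (so `α_i` is an automorphism): algebraic `ℤ^d`-actions (`c_i = 1`), rotations and
unipotent affine actions are included. No ergodicity, mixing, expansiveness, entropy, Noetherian
or metrizability assumption is made. The exponents are arbitrary integer polynomials in `k`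
variables, of arbitrary degrees.
-/

set_option autoImplicit false

open Filter Topology MeasureTheory
open scoped ENNReal

namespace Pool.Agent.Results.MP_f720ae_an.AlgebraicPolynomialBoxes

/-- `f` lies, almost everywhere, between continuous functions with arbitrarily close integrals
(for real `f`: `f` is Riemann integrable; continuous functions are an example, `u = f`, `K = 0`). -/
def RiemannIntegrable {X : Type*} [TopologicalSpace X] [MeasurableSpace X] (μ : Measure X)
    (f : X → ℂ) : Prop :=
  ∀ ε : ℝ, 0 < ε → ∃ (u : X → ℂ) (K : X → ℝ), Continuous u ∧ Continuous K ∧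
    (∀ᵐ x ∂μ, ‖f x - u x‖ ≤ K x) ∧ ∫ x, K x ∂μ ≤ ε

/-- For every bounded measurable `G`, the box averages of the single function
`m ↦ G (T_1^(p_1(m)) ⋯ T_d^(p_d(m)) x)` converge for almost every `x`. -/
def SingleAveragesConverge {X : Type*} [MeasurableSpace X] {d k : ℕ} (μ : Measure X)
    (T : Fin d → Equiv.Perm X) (p : Fin d → MvPolynomial (Fin k) ℤ) : Prop :=
  ∀ G : X → ℝ, Measurable G → (∃ C : ℝ, ∀ x, |G x| ≤ C) →
    ∀ᵐ x ∂μ, ∃ L : ℝ, Tendsto (fun M : Fin k → ℕ => (∏ j, (M j : ℝ))⁻¹ *
      ∑ m ∈ Fintype.piFinset (fun j => Finset.range (M j)),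
        G ((List.ofFn fun i : Fin d =>
          T i ^ (MvPolynomial.eval (fun l => ((m l : ℕ) : ℤ)) (p i))).prod x)) atTop (𝓝 L)

/-- Let `T_1, …, T_d` be commuting affine bijections of a compact Hausdorff abelian group `X` with
Haar probability `μ`, let `P_ij ∈ ℤ[m_1, …, m_k]` be arbitrary polynomials and
`f_1, …, f_n ∈ L^∞(μ)`. Suppose that for each `j`

* `P_1j, …, P_dj` all have degree at most one, or
* `f_j` is Riemann integrable, for example continuous, or
* `X` is metrizable and `f_j` is continuous at almost every point, or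
* the averages of single bounded functions along `T_1^(P_1j(m)) ⋯ T_d^(P_dj(m))` converge a.e.

Then for almost every `x` the averages of `∏_j f_j (T_1^(P_1j(m)) ⋯ T_d^(P_dj(m)) x)` over the
boxes `[0, M_1) × ⋯ × [0, M_k)` converge as `min M_i → ∞` (unrestricted boxes). -/
theorem result (d k n : ℕ) {X : Type*} [CommGroup X] [TopologicalSpace X]
    [IsTopologicalGroup X] [CompactSpace X] [T2Space X] [MeasurableSpace X] [BorelSpace X]
    (μ : Measure X) [μ.IsHaarMeasure] [IsProbabilityMeasure μ]
    (T : Fin d → Equiv.Perm X)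
    (hT : ∀ i, ∃ (α : X →ₜ* X) (c : X), ∀ x, T i x = α x * c)
    (hc : ∀ i j, Commute (T i) (T j))
    (P : Fin d → Fin n → MvPolynomial (Fin k) ℤ)
    (f : Fin n → X → ℂ) (hf : ∀ j, MemLp (f j) ∞ μ)
    (hslot : ∀ j, (∀ i, (P i j).totalDegree ≤ 1) ∨ RiemannIntegrable μ (f j) ∨
      (TopologicalSpace.MetrizableSpace X ∧ ∀ᵐ x ∂μ, ContinuousAt (f j) x) ∨
      SingleAveragesConverge μ T (fun i => P i j)) :
    ∀ᵐ x ∂μ, ∃ L : ℂ, Tendsto
      (fun M : Fin k → ℕ => (∏ j, (M j : ℂ))⁻¹ *
        ∑ m ∈ Fintype.piFinset (fun j => Finset.range (M j)),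
          ∏ j : Fin n, f j ((List.ofFn fun i : Fin d =>
            T i ^ (MvPolynomial.eval (fun l => ((m l : ℕ) : ℤ)) (P i j))).prod x))
      atTop (𝓝 L) :=
  Pool.Agent.TH635.AA.poly_top hT hc P hf hslot

end Pool.Agent.Results.MP_f720ae_an.AlgebraicPolynomialBoxes
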