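import Pool.Agent.TH635.NP.Fnl

/-!
# Nilpotent groups of affine maps of tori, polynomial exponents, unrestricted boxes

`X` is a compact Hausdorff abelian group whose character group is finitely generated, i.e. a torus
`𝕋^r` times a finite abelian group, with its Haar probability measure `μ`, and `T_1, …, T_d` are
affine bijections `x ↦ α_i x · c_i` of `X` (`α_i` a continuous homomorphism, so `α_i` is an
automorphism) which generate a NILPOTENT group. The maps need not commute, and neither do their
linear parts `α_i`; no ergodicity, hyperbolicity or unipotence is assumed. The exponents are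
arbitrary integer polynomials in `k` variables, of arbitrary degrees.
-/

set_option autoImplicit false

open Filter Topology MeasureTheory
open scoped ENNReal

namespace Pool.Agent.Results.MP_f720ae_an.NilpotentToralBoxes

/-- `f` lies, almost everywhere, between continuous functions with arbitrarily close integrals
(for real `f`: `f` is Riemann integrable; continuous functions are an example, `u = f`, `K = 0`). -/
def RiemannIntegrable {X : Type} [TopologicalSpace X] [MeasurableSpace X] (μ : Measure X)
    (f : X → ℂ) : Prop :=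
  ∀ ε : ℝ, 0 < ε → ∃ (u : X → ℂ) (K : X → ℝ), Continuous u ∧ Continuous K ∧
    (∀ᵐ x ∂μ, ‖f x - u x‖ ≤ K x) ∧ ∫ x, K x ∂μ ≤ ε

/-- For every bounded measurable `G`, the box averages of the single function
`m ↦ G (T_1^(p_1(m)) ⋯ T_d^(p_d(m)) x)` converge for almost every `x`. -/
def SingleAveragesConverge {X : Type} [MeasurableSpace X] {d k : ℕ} (μ : Measure X)
    (T : Fin d → Equiv.Perm X) (p : Fin d → MvPolynomial (Fin k) ℤ) : Prop :=
  ∀ G : X → ℝ, Measurable G → (∃ C : ℝ, ∀ x, |G x| ≤ C) →
    ∀ᵐ x ∂μ, ∃ L : ℝ, Tendsto (fun M : Fin k → ℕ => (∏ j, (M j : ℝ))⁻¹ *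
      ∑ m ∈ Fintype.piFinset (fun j => Finset.range (M j)),
        G ((List.ofFn fun i : Fin d =>
          T i ^ (MvPolynomial.eval (fun l => ((m l : ℕ) : ℤ)) (p i))).prod x)) atTop (𝓝 L)

/-- The maps `T_1^(p_1(m)) ⋯ T_d^(p_d(m))` have the form `U_1^(m_1) ⋯ U_k^(m_k) W` for some measure
preserving `U_1, …, U_k, W` (for instance when every `p_i` is affine linear in one variable `m_l`,
with `l` nondecreasing in `i` and the nonconstant exponents `p_i` have distinct `l`). -/
def OrderedLinear {X : Type} [MeasurableSpace X] {d k : ℕ} (μ : Measure X)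
    (T : Fin d → Equiv.Perm X) (p : Fin d → MvPolynomial (Fin k) ℤ) : Prop :=
  ∃ (U : Fin k → Equiv.Perm X) (W : Equiv.Perm X), (∀ l, MeasurePreserving (U l) μ μ) ∧
    MeasurePreserving W μ μ ∧ ∀ m : Fin k → ℕ,
      (List.ofFn fun i : Fin d => T i ^ (MvPolynomial.eval (fun l => ((m l : ℕ) : ℤ)) (p i))).prod =
        (List.ofFn fun l => U l ^ m l).prod * W

/-- Let `X` be a compact Hausdorff abelian group with finitely generated character group and Haar
probability `μ`, and let `T_1, …, T_d` be affine bijections of `X` generating a nilpotent group.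
Let `P_ij ∈ ℤ[m_1, …, m_k]` be arbitrary polynomials and `f_1, …, f_n ∈ L^∞(μ)`. Suppose that for
each `j`

* `f_j` is Riemann integrable, for example continuous, or
* `f_j` is continuous at almost every point, or
* `T_1^(P_1j(m)) ⋯ T_d^(P_dj(m))` has the form `U_1^(m_1) ⋯ U_k^(m_k) W`, or
* the averages of single bounded functions along `T_1^(P_1j(m)) ⋯ T_d^(P_dj(m))` converge a.e.

Then for almost every `x` the averages of `∏_j f_j (T_1^(P_1j(m)) ⋯ T_d^(P_dj(m)) x)` over the
boxes `[0, M_1) × ⋯ × [0, M_k)` converge as `min M_i → ∞` (unrestricted boxes). -/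
theorem result (d k n : ℕ) {X : Type} [CommGroup X] [TopologicalSpace X]
    [IsTopologicalGroup X] [CompactSpace X] [T2Space X] [MeasurableSpace X] [BorelSpace X]
    (hX : Group.FG (X →ₜ* Circle))
    (μ : Measure X) [μ.IsHaarMeasure] [IsProbabilityMeasure μ]
    (T : Fin d → Equiv.Perm X)
    (hT : ∀ i, ∃ (α : X →ₜ* X) (c : X), ∀ x, T i x = α x * c)
    (hnil : Group.IsNilpotent ↥(Subgroup.closure (Set.range T)))
    (P : Fin d → Fin n → MvPolynomial (Fin k) ℤ)
    (f : Fin n → X → ℂ) (hf : ∀ j, MemLp (f j) ∞ μ)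
    (hslot : ∀ j, RiemannIntegrable μ (f j) ∨ (∀ᵐ x ∂μ, ContinuousAt (f j) x) ∨
      OrderedLinear μ T (fun i => P i j) ∨ SingleAveragesConverge μ T (fun i => P i j)) :
    ∀ᵐ x ∂μ, ∃ L : ℂ, Tendsto
      (fun M : Fin k → ℕ => (∏ j, (M j : ℂ))⁻¹ *
        ∑ m ∈ Fintype.piFinset (fun j => Finset.range (M j)),
          ∏ j : Fin n, f j ((List.ofFn fun i : Fin d =>
            T i ^ (MvPolynomial.eval (fun l => ((m l : ℕ) : ℤ)) (P i j))).prod x))
      atTop (𝓝 L) :=
  Pool.Agent.TH635.NP.nil_top hX hT hnil P hf hslot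

end Pool.Agent.Results.MP_f720ae_an.NilpotentToralBoxes
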