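import Pool.Agent.TH739.PB.Fin

/-!
# Pointwise convergence of multi-parameter multiple averages for products of Poisson, Gaussian and
discrete spectrum actions

* `IsDiscAct δ Δ`: the action `Δ` of `G` preserves `δ`, and finite linear combinations of bounded
  eigenfunctions (`e ∘ Δ g = χ g * e` a.e., `χ g` on the unit circle) are dense.
* `IsGaussAct μ Φ`: the maps `Φ g` preserve `μ` and commute, and a linear space of centered
  Gaussian variables is invariant and generates the σ-algebra (both modulo null sets).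
* `IsPoissonAction κ Θ ν Ψ`: `Ψ` on `(Y, ν)` is the Poisson suspension of the action `Θ` on the
  (possibly infinite) measure space `(W, κ)`: there are events `E A` (void events) with
  probability `exp (-κ A)`, `E (A ∪ B) = E A ∩ E B`, `Ψ g ⁻¹' E A = E (Θ g ⁻¹' A)`, which generate
  the σ-algebra (all modulo null sets).
* `IsFac τ Γ₀ ζ Γ`: the action `Γ` on `(Z, ζ)` is a factor of the action `Γ₀`.

One-point spaces are allowed for `D`, `X` and `Ω`, so the theorem contains the case of Poisson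
suspensions alone. For a commutative group generated by `T_1, …, T_d` the products
`w_j u_j1^(n_1) ⋯ u_jk^(n_k)` are exactly the `∏ T_i^(P_ij(n))` with polynomials `P_ij` of degree
at most one.
-/

set_option autoImplicit false

open Filter Topology MeasureTheory
open scoped ENNReal symmDiff

namespace Pool.Agent.Results.MP_f720ae_an.PoissonBoxes

open Pool.Agent.TH739.PA (IsPoissonAction)
open Pool.Agent.TH739.PB (IsDiscAct IsGaussAct IsFac pact)

/-- Let the group `G` (not necessarily commutative) act on `(D, δ)` with discrete spectrum, on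
`(X, μ)` by commuting Gaussian maps, and on `(Y, ν)` by the Poisson suspension of an action `Θ` on
an s-finite measure space `(W, κ)`. Let `(Z, ζ, Γ)` be a factor of the product action on
`D × X × Y` (for example the product). Let `u_jl, w_j ∈ G`, and suppose: if `u_i ≠ u_j`, then the
overlaps `κ (Θ(∏ u_il^(p_l))⁻¹ A ∩ Θ(∏ u_jl^(p_l))⁻¹ B) / ∏ (1 + p_l)` are summable over the
`p ∈ ℕ^k` with `p_l = 0` for all `l` with `u_il = u_jl` central, for all `A, B` in a dense family
`ℛ` of sets of finite measure. Let `V_1, …, V_k` be arbitrary invertible measure preserving maps of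
a further probability space `(Ω, P)`. Then for all `f_j ∈ L^∞(Z)`, `h ∈ L^∞(Ω)` and almost all
`(z, ω)` the averages of
`∏_j f_j (Γ(w_j u_j1^(n_1) ⋯ u_jk^(n_k)) z) * h (V_1^(n_1) ⋯ V_k^(n_k) ω)`
over the boxes `[0, M_1) × ⋯ × [0, M_k)` converge as `min M_i → ∞` (unrestricted boxes). -/
theorem result {G D X Y W Z Ω : Type} [Group G] [MeasurableSpace D] [MeasurableSpace X]
    [MeasurableSpace Y] [MeasurableSpace W] [MeasurableSpace Z] [MeasurableSpace Ω] [Nonempty W]
    (k m : ℕ) (δ : Measure D) [IsProbabilityMeasure δ] (μ : Measure X) [IsProbabilityMeasure μ]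
    (κ : Measure W) [SFinite κ] (ν : Measure Y) [IsProbabilityMeasure ν] (ζ : Measure Z)
    (P : Measure Ω) [IsProbabilityMeasure P] (Δ : G →* Equiv.Perm D) (Φ : G →* Equiv.Perm X)
    (Θ : G →* Equiv.Perm W) (Ψ : G →* Equiv.Perm Y) (Γ : G →* Equiv.Perm Z)
    (hΔ : IsDiscAct δ Δ) (hΦ : IsGaussAct μ Φ) (hΨ : IsPoissonAction κ Θ ν Ψ)
    (hΓ : IsFac ((δ.prod μ).prod ν) (pact (pact Δ Φ) Ψ) ζ Γ)
    (u : Fin m → Fin k → G) (w : Fin m → G)
    (ℛ : Set (Set W)) (hℛ : ∀ A ∈ ℛ, MeasurableSet A ∧ κ A ≠ ∞)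
    (hd : ∀ A, MeasurableSet A → κ A ≠ ∞ → ∀ ε : ℝ, 0 < ε → ∃ B ∈ ℛ, (κ (A ∆ B)).toReal ≤ ε)
    (hs : ∀ i j, u i ≠ u j → ∀ A ∈ ℛ, ∀ B ∈ ℛ,
      Summable fun p : {p : Fin k → ℕ // ∀ l, u i l = u j l ∧ u i l ∈ Subgroup.center G →
        p l = 0} => κ.real (Θ (List.ofFn fun l => u i l ^ p.1 l).prod ⁻¹' A ∩
          Θ (List.ofFn fun l => u j l ^ p.1 l).prod ⁻¹' B) / ∏ l, (1 + (p.1 l : ℝ)))
    (f : Fin m → Z → ℂ) (hf : ∀ j, MemLp (f j) ∞ ζ) (V : Fin k → Equiv.Perm Ω)
    (hV : ∀ l, MeasurePreserving (V l) P P) (h : Ω → ℂ) (hh : MemLp h ∞ P) :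
    ∀ᵐ z ∂(ζ.prod P), ∃ L : ℂ, Tendsto (fun M : Fin k → ℕ => (∏ l, (M l : ℂ))⁻¹ *
      ∑ n ∈ Fintype.piFinset (fun l => Finset.range (M l)),
        (∏ j, f j (Γ (w j * (List.ofFn fun l => u j l ^ n l).prod) z.1)) *
          h ((List.ofFn fun l => V l ^ n l).prod z.2)) atTop (𝓝 L) :=
  Pool.Agent.TH739.PB.main hΔ hΦ hΨ hΓ u w hℛ hd hs hf hV hh

end Pool.Agent.Results.MP_f720ae_an.PoissonBoxes
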